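import Pool.Agent.N134.QL.BCb

/-!
# Project QL, task BC: stages B and C (functions constant on cells)
-/

set_option autoImplicit false

namespace Pool.Agent.N134.QL

open Finset MeasureTheory Pool.Agent.N728.QL

theorem ev (M : ℝ) (m : ℕ) : ∃ B0 : ℕ, ∀ B : ℕ, B0 ≤ B → M ≤ Real.log B ∧
    M * Real.log B ^ m ≤ (B : ℝ) ^ (1 / 4 : ℝ) ∧ 1 ≤ B := by
  have h1 : ∀ᶠ x : ℝ in Filter.atTop, M ≤ Real.log x :=
    Real.tendsto_log_atTop.eventually_ge_atTop M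
  have h2 : ∀ᶠ x : ℝ in Filter.atTop, M * Real.log x ^ m ≤ x ^ (1 / 4 : ℝ) := by
    have h3 := isLittleO_log_rpow_rpow_atTop (m : ℝ) (show (0 : ℝ) < 1 / 4 by norm_num)
    have h4 := h3.def (c := 1 / (|M| + 1)) (by positivity)
    filter_upwards [h4, Filter.eventually_ge_atTop (1 : ℝ)] with x hx hx1
    have hl : 0 ≤ Real.log x := Real.log_nonneg hx1
    rw [Real.rpow_natCast, Real.norm_of_nonneg (by positivity),
      Real.norm_of_nonneg (by positivity)] at hx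
    have h5 : M * Real.log x ^ m ≤ (|M| + 1) * Real.log x ^ m := by
      refine mul_le_mul_of_nonneg_right ?_ (by positivity)
      linarith [le_abs_self M]
    refine h5.trans ?_
    calc (|M| + 1) * Real.log x ^ m ≤ (|M| + 1) * (1 / (|M| + 1) * x ^ (1 / 4 : ℝ)) := by gcongr
      _ = x ^ (1 / 4 : ℝ) := by
        have : |M| + 1 ≠ 0 := by positivity
        field_simp
  have h6 := (tendsto_natCast_atTop_atTop (R := ℝ)).eventually (h1.and h2)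
  obtain ⟨B0, hB0⟩ := Filter.eventually_atTop.1 (h6.and (Filter.eventually_ge_atTop 1))
  exact ⟨B0, fun B hB => ⟨(hB0 B hB).1.1, (hB0 B hB).1.2, (hB0 B hB).2⟩⟩

theorem tele (f : ℕ → ℝ) (U : ℕ → ℕ) (hU : Monotone U) (J : ℕ) :
    ∑ i ∈ range J, ∑ u ∈ Ioc (U i) (U (i + 1)), f u = ∑ u ∈ Ioc (U 0) (U J), f u := by
  induction J with
  | zero => simp
  | succ J ih =>
    rw [Finset.sum_range_succ, ih, Finset.sum_Ioc_consecutive _ (hU (Nat.zero_le _))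
      (hU (Nat.le_succ _))]

theorem Ioc_zero (n : ℕ) : Ioc 0 n = Icc 1 n := by
  ext u
  rw [mem_Ioc, mem_Icc]
  omega

theorem sub_filter (f : ℕ → ℝ) (p : ℕ → Prop) [DecidablePred p] {U U' : ℕ} (h : U ≤ U') :
    ∑ u ∈ (Ioc U U').filter p, f u =
      ∑ u ∈ (Icc 1 U').filter p, f u - ∑ u ∈ (Icc 1 U).filter p, f u := by
  rw [← Ioc_zero, ← Ioc_zero, Finset.sum_filter, Finset.sum_filter, Finset.sum_filter,
    ← Finset.sum_Ioc_consecutive _ (Nat.zero_le U) h]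
  ring

/-- the final computation -/
theorem final {Bt T H hh mm' J J0 q ε ε1 δ Ck CU V0 E0 R M lg MT : ℝ}
    (hT0 : 0 ≤ T) (hH0 : 0 < H) (hJ : J ≤ J0) (hJ0 : 0 < J0) (hq : 0 < q)
    (hε : 0 < ε) (hε1 : ε1 = ε / (12 * J0 * q ^ 2)) (hJh : J * hh ≤ 2 * T)
    (hR1 : 1 ≤ R) (hB : Bt = R ^ 4) (hV0 : V0 ≤ 2 * R ^ 2) (hE0 : E0 ≤ 3 * lg)
    (hV00 : 0 ≤ V0) (hE00 : 0 ≤ E0) (hM : 96 / ε ≤ M) (hMl : M * lg ≤ R) (hl : 0 ≤ lg)
    (hmm : mm' ≤ 3 * (δ * H)) (hmm0 : 0 ≤ mm') (hHB : 4 * H ≤ Bt) (hCk : 0 < Ck) (hCU : 0 < CU)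
    (hδ0 : 0 < δ) (hδ : δ ≤ ε / (640 * Ck * CU)) :
    MT + 3 * J * q ^ 2 * ε1 * (Bt * T) + J * hh * (2 * V0 * E0 + 4 * Ck * CU *
      (4 * Bt / H + 4) * mm') ≤ MT + ε * (Bt * T) := by
  have hB0 : 0 < Bt := by rw [hB]; positivity
  have h1 : 3 * J * q ^ 2 * ε1 ≤ ε / 4 := by
    rw [hε1]
    have h2 : 3 * J * q ^ 2 * (ε / (12 * J0 * q ^ 2)) = ε / 4 * (J / J0) := by
      field_simp
      ring
    rw [h2]
    have h3 : J / J0 ≤ 1 := by rw [div_le_one hJ0]; exact hJ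
    nlinarith
  have h4 : 3 * J * q ^ 2 * ε1 * (Bt * T) ≤ ε / 4 * (Bt * T) :=
    mul_le_mul_of_nonneg_right h1 (by positivity)
  have h5 : 2 * V0 * E0 ≤ ε / 8 * Bt := by
    have hM0 : 0 < M := lt_of_lt_of_le (by positivity) hM
    have h6 : 2 * V0 * E0 ≤ 2 * (2 * R ^ 2) * (3 * lg) := by gcongr
    have h7 : 96 * lg ≤ ε * R := by
      rw [div_le_iff₀ hε] at hM
      have : 96 * lg ≤ M * ε * lg := mul_le_mul_of_nonneg_right hM hl
      nlinarith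
    have h8 : 2 * (2 * R ^ 2) * (3 * lg) ≤ ε / 8 * R ^ 3 := by
      have : R ^ 2 * (96 * lg) ≤ R ^ 2 * (ε * R) := by gcongr
      nlinarith
    have h9 : R ^ 3 ≤ R ^ 4 := pow_le_pow_right₀ hR1 (by norm_num)
    rw [hB]
    nlinarith
  have h10 : 4 * Ck * CU * (4 * Bt / H + 4) * mm' ≤ ε / 8 * Bt := by
    have h11 : 4 * Bt / H + 4 ≤ 5 * Bt / H := by
      rw [div_add' _ _ _ hH0.ne', div_le_div_iff_of_pos_right hH0]
      linarith
    calc 4 * Ck * CU * (4 * Bt / H + 4) * mm' ≤ 4 * Ck * CU * (5 * Bt / H) * (3 * (δ * H)) := by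
          gcongr
      _ = 60 * Ck * CU * Bt * δ := by
          field_simp
          ring
      _ ≤ 60 * Ck * CU * Bt * (ε / (640 * Ck * CU)) := by gcongr
      _ = 60 / 640 * (ε * Bt) := by
          field_simp
      _ ≤ ε / 8 * Bt := by nlinarith [mul_pos hε hB0]
  have h12 : J * hh * (2 * V0 * E0 + 4 * Ck * CU * (4 * Bt / H + 4) * mm') ≤
      2 * T * (ε / 4 * Bt) := by
    have h13 : 0 ≤ 2 * V0 * E0 + 4 * Ck * CU * (4 * Bt / H + 4) * mm' := by positivity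
    calc _ ≤ 2 * T * (2 * V0 * E0 + 4 * Ck * CU * (4 * Bt / H + 4) * mm') :=
          mul_le_mul_of_nonneg_right hJh h13
      _ ≤ 2 * T * (ε / 4 * Bt) := by
          refine mul_le_mul_of_nonneg_left ?_ (by positivity)
          linarith
  nlinarith [mul_nonneg hε.le (mul_nonneg hB0.le hT0)]


set_option maxHeartbeats 4000000 in
/-- Stages B and C. -/
theorem t_BC (hSM : S_SM) (hB2 : ∀ c : ℤ, c ≠ 0 → S_B2 c) (hB4 : ∀ c : ℤ, c ≠ 0 → S_B4 c)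
    (hU0 : ∀ c : ℤ, c ≠ 0 → S_U0 c) (hMER : S_MER) :
    ∀ a c : ℤ, a ≠ 0 → c ≠ 0 → S_BC a c := by
  classical
  intro a c ha hc
  obtain ⟨CS, hCS1, hSM⟩ := hSM
  obtain ⟨CM, hCM1, -, hM⟩ := hMER
  obtain ⟨C1, K, hK, hB4⟩ := hB4 c hc
  obtain ⟨CU, hCU, k0, BU, hU0⟩ := hU0 c hc
  have hB2 := hB2 c hc
  refine ⟨C1 + 1, K, hK, ?_⟩
  intro q z C2 ε η hq hz hcz hε hη hPP hpq
  -- the constants
  obtain ⟨k, hk0, hk2⟩ : ∃ k : ℕ, k0 ≤ k ∧ 2 ≤ k := ⟨max k0 2, le_max_left _ _, le_max_right _ _⟩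
  obtain ⟨Ck, hCk⟩ : ∃ Ck : ℝ, Ck = 4 * k * CM := ⟨_, rfl⟩
  have hkr : (2 : ℝ) ≤ k := by exact_mod_cast hk2
  have hCk0 : 0 < Ck := by rw [hCk]; positivity
  obtain ⟨δ, hδ⟩ : ∃ δ : ℝ, δ = min (1 / 2) (ε / (640 * Ck * CU)) := ⟨_, rfl⟩
  have hδ0 : 0 < δ := by rw [hδ]; exact lt_min (by norm_num) (by positivity)
  have hδ1 : δ ≤ 1 / 2 := by rw [hδ]; exact min_le_left _ _
  have hδ2 : δ ≤ ε / (640 * Ck * CU) := by rw [hδ]; exact min_le_right _ _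
  have ha1 : (1 : ℝ) ≤ |(a : ℝ)| := by exact_mod_cast Int.one_le_abs ha
  have ha0 : (0 : ℝ) < |(a : ℝ)| := by linarith
  obtain ⟨κ, hκ⟩ : ∃ κ : ℝ, κ = δ / (2 * |(a : ℝ)|) := ⟨_, rfl⟩
  have hκ0 : 0 < κ := by rw [hκ]; positivity
  have hκδ : |(a : ℝ)| * κ = δ / 2 := by rw [hκ]; field_simp
  have hκδ' : κ ≤ δ / 2 := (le_mul_of_one_le_left hκ0.le ha1).trans hκδ.le
  obtain ⟨J0, hJ0⟩ : ∃ J0 : ℝ, J0 = 2 / (κ * η) + 1 := ⟨_, rfl⟩
  have hJ00 : 0 < J0 := by rw [hJ0]; positivity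
  have hqr : (1 : ℝ) ≤ q := by exact_mod_cast hq
  have hq0 : (0 : ℝ) < q := by linarith
  obtain ⟨ε1, hε1⟩ : ∃ ε1 : ℝ, ε1 = ε / (12 * J0 * (q : ℝ) ^ 2) := ⟨_, rfl⟩
  have hε10 : 0 < ε1 := by rw [hε1]; positivity
  obtain ⟨BB2, hB2⟩ := hB2 q z (C2 + 2) ε1 hq hz hε10
  obtain ⟨BB4, hB4⟩ := hB4 q z ε1 hq hz hcz hε10 hPP hpq
  obtain ⟨M, hM1, hM2, hM3, hM4, hM5, hM6, hM7, hM8, hM9, hM10, hM11⟩ : ∃ M : ℝ, 100 ≤ M ∧
      4 / (κ * η) ≤ M ∧ 4 * (1 + |(a : ℝ)|) ≤ M ∧ CS ^ 2 ≤ M ∧ 2 * CS / (δ * η) ≤ M ∧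
      2 * CS ≤ M ∧ 96 / ε ≤ M ∧ (z : ℝ) ^ k0 ≤ M ∧ (2 : ℝ) ^ k ≤ M ∧ (c.natAbs : ℝ) ≤ M ∧
      (VW 0 z)⁻¹ ≤ M :=
    ((Filter.eventually_ge_atTop _).and ((Filter.eventually_ge_atTop _).and
      ((Filter.eventually_ge_atTop _).and ((Filter.eventually_ge_atTop _).and
      ((Filter.eventually_ge_atTop _).and ((Filter.eventually_ge_atTop _).and
      ((Filter.eventually_ge_atTop _).and ((Filter.eventually_ge_atTop _).and
      ((Filter.eventually_ge_atTop _).and ((Filter.eventually_ge_atTop _).and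
      (Filter.eventually_ge_atTop _))))))))))).exists
  obtain ⟨B0, hB0⟩ := ev M (C2 + 1)
  refine ⟨max (max BU BB2) (max BB4 B0), fun B hB T H F hT1 hT2 hqH hH1 hH2 hA hF => ?_⟩
  have hBU : BU ≤ B := le_trans (le_trans (le_max_left _ _) (le_max_left _ _)) hB
  have hBB2 : BB2 ≤ B := le_trans (le_trans (le_max_right _ _) (le_max_left _ _)) hB
  have hBB4 : BB4 ≤ B := le_trans (le_trans (le_max_left _ _) (le_max_right _ _)) hB
  obtain ⟨hlg, hRlg, hB1⟩ := hB0 B (le_trans (le_trans (le_max_right _ _) (le_max_right _ _)) hB)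
  have hU0 := hU0 B hBU
  have hB2 := hB2 B hBB2
  have hB4 := hB4 B hBB4
  obtain ⟨lg, hlgd⟩ : ∃ lg : ℝ, lg = Real.log B := ⟨_, rfl⟩
  obtain ⟨R, hRd⟩ : ∃ R : ℝ, R = (B : ℝ) ^ (1 / 4 : ℝ) := ⟨_, rfl⟩
  rw [← hlgd] at hlg hRlg hT1 hT2
  rw [← hRd] at hRlg
  have hM0 : (0 : ℝ) < M := by linarith
  have hlg1 : 1 ≤ lg := by linarith
  have hlg0 : 0 < lg := by linarith
  have hBr : (1 : ℝ) ≤ B := by exact_mod_cast hB1
  have hRB : (B : ℝ) = R ^ 4 := by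
    rw [hRd, ← Real.rpow_natCast, ← Real.rpow_mul (by linarith)]
    norm_num
  have hlp : 1 ≤ lg ^ C2 := one_le_pow₀ hlg1
  have hR1 : M * lg ≤ R := by
    refine le_trans ?_ hRlg
    rw [pow_succ]
    have : lg ≤ lg ^ C2 * lg := le_mul_of_one_le_left hlg0.le hlp
    gcongr
  have hR2 : M * lg ^ C2 ≤ R := by
    refine le_trans ?_ hRlg
    have : lg ^ C2 ≤ lg ^ (C2 + 1) := pow_le_pow_right₀ hlg1 (by omega)
    gcongr
  have hRM : M ≤ R := (le_mul_of_one_le_right hM0.le hlg1).trans hR1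
  have hR0 : 1 ≤ R := by linarith
  have hTr : M * R ^ 3 ≤ T := by
    have h1 : M * R ^ 4 ≤ T * R := by
      calc M * R ^ 4 = M * B := by rw [hRB]
        _ ≤ M * (T * lg ^ C2) := by gcongr
        _ = T * (M * lg ^ C2) := by ring
        _ ≤ T * R := by gcongr
    have h2 : (M * R ^ 3) * R ≤ T * R := by
      calc (M * R ^ 3) * R = M * R ^ 4 := by ring
        _ ≤ T * R := h1
    exact le_of_mul_le_mul_right h2 (by linarith)
  have hT0 : (0 : ℝ) < T := lt_of_lt_of_le (by positivity) hTr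
  have hT3 : (T : ℝ) * lg ^ C1 ≤ B := by
    refine le_trans ?_ hT2
    have : lg ^ C1 ≤ lg ^ (C1 + 1) := pow_le_pow_right₀ hlg1 (by omega)
    gcongr
  have hTM : (T : ℝ) * M ≤ B := by
    refine le_trans ?_ hT2
    have h1 : 1 ≤ lg ^ C1 := one_le_pow₀ hlg1
    have : M ≤ lg ^ (C1 + 1) := by
      rw [pow_succ]
      exact hlg.trans (le_mul_of_one_le_left hlg0.le h1)
    gcongr
  have hH2r : (H : ℝ) ≤ T := by exact_mod_cast hH2
  have hH0 : (0 : ℝ) < H := lt_of_lt_of_le (by positivity) hH1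
  have hH1' : 1 ≤ H := by
    have : 0 < H := by exact_mod_cast hH0
    omega
  have hR3 : 1 ≤ R ^ 3 := one_le_pow₀ hR0
  have hκH : 4 * R ^ 3 ≤ κ * H := by
    rw [div_le_iff₀ (by positivity)] at hM2
    calc 4 * R ^ 3 ≤ M * (κ * η) * R ^ 3 := by gcongr
      _ = κ * (η * (M * R ^ 3)) := by ring
      _ ≤ κ * (η * T) := by gcongr
      _ ≤ κ * H := by gcongr
  obtain ⟨h, hh⟩ : ∃ h : ℕ, h = ⌊κ * H⌋₊ := ⟨_, rfl⟩
  have hh1 : (h : ℝ) ≤ κ * H := by rw [hh]; exact Nat.floor_le (by positivity)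
  have hh2 : κ * H < h + 1 := by rw [hh]; exact Nat.lt_floor_add_one _
  have hh3 : κ * H ≤ 2 * h := by linarith
  have hh4 : 2 * R ^ 3 ≤ h := by linarith
  have hh5 : (h : ℝ) ≤ H := by
    have : κ * H ≤ 1 * H := by gcongr; linarith
    linarith
  have hhT : h ≤ T := by
    have : (h : ℝ) ≤ T := by linarith
    exact_mod_cast this
  have hh0 : 0 < h := by
    have : (0 : ℝ) < h := by linarith
    exact_mod_cast this
  have hδH : |(a : ℝ)| * h < δ * H := by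
    have h1 : |(a : ℝ)| * h ≤ |(a : ℝ)| * (κ * H) := by gcongr
    have h2 : |(a : ℝ)| * (κ * H) = δ / 2 * H := by rw [← mul_assoc, hκδ]
    have h3 : 0 < δ * H := by positivity
    linarith
  have hδH2 : 8 * R ^ 3 ≤ δ * H := by
    have := mul_le_mul_of_nonneg_right hκδ' hH0.le
    linarith
  have hsq : B ≤ h ^ 2 := by
    have h1 : (B : ℝ) ≤ (h : ℝ) ^ 2 := by
      rw [hRB]
      have h2 : R ^ 2 ≤ h := by
        have : R ^ 2 ≤ R ^ 3 := pow_le_pow_right₀ hR0 (by norm_num)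
        linarith
      calc R ^ 4 = (R ^ 2) ^ 2 := by ring
        _ ≤ (h : ℝ) ^ 2 := by gcongr
    exact_mod_cast h1
  have hB100 : (100 : ℝ) ≤ B := by
    have h1 : 1 ≤ M * R ^ 3 := one_le_mul_of_one_le_of_one_le (by linarith) hR3
    have h2 : M ≤ T * M := le_mul_of_one_le_left hM0.le (h1.trans hTr)
    linarith
  have h4Tr : 100 * (T : ℝ) ≤ B := by
    calc 100 * (T : ℝ) ≤ M * T := by gcongr
      _ = T * M := by ring
      _ ≤ B := hTM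
  have h4T : 100 * T ≤ B := by exact_mod_cast h4Tr
  have hBB : 100 * (B : ℝ) ≤ (B : ℝ) ^ 2 := by
    rw [sq]
    gcongr
  -- the smoothing
  obtain ⟨ℓ, hℓ⟩ : ∃ ℓ : ℝ, ℓ = Real.sqrt lg := ⟨_, rfl⟩
  have hℓ2 : ℓ ^ 2 = lg := by rw [hℓ]; exact Real.sq_sqrt hlg0.le
  have hℓ10 : 10 ≤ ℓ := by
    rw [hℓ]
    apply Real.le_sqrt_of_sq_le
    linarith
  have hCSℓ : CS * ℓ ≤ lg := by
    have h1 : CS ≤ ℓ := by
      rw [hℓ]
      apply Real.le_sqrt_of_sq_le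
      linarith
    calc CS * ℓ ≤ ℓ * ℓ := by gcongr
      _ = lg := by rw [← hℓ2]; ring
  obtain ⟨L, hL⟩ : ∃ L : ℝ, L = CS * (B / (δ * H) + ℓ) := ⟨_, rfl⟩
  have hL1 : 1 ≤ L := by
    rw [hL]
    have h1 : 0 ≤ B / (δ * H) := by positivity
    exact one_le_mul_of_one_le_of_one_le hCS1 (by linarith)
  have hL2 : L ≤ lg ^ (C2 + 2) := by
    have h1 : (B : ℝ) / (δ * H) ≤ lg ^ C2 / (δ * η) := by
      rw [div_le_div_iff₀ (by positivity) (by positivity)]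
      calc (B : ℝ) * (δ * η) ≤ (T * lg ^ C2) * (δ * η) := by gcongr
        _ = lg ^ C2 * (δ * (η * T)) := by ring
        _ ≤ lg ^ C2 * (δ * H) := by gcongr
    have h2 : CS * (lg ^ C2 / (δ * η)) ≤ lg ^ C2 * (lg / 2) := by
      have h3 : CS / (δ * η) ≤ lg / 2 := by
        have : 2 * CS / (δ * η) = 2 * (CS / (δ * η)) := by ring
        linarith
      calc CS * (lg ^ C2 / (δ * η)) = lg ^ C2 * (CS / (δ * η)) := by ring
        _ ≤ lg ^ C2 * (lg / 2) := by gcongr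
    rw [hL, pow_add]
    calc CS * (B / (δ * H) + ℓ) = CS * (B / (δ * H)) + CS * ℓ := by ring
      _ ≤ CS * (lg ^ C2 / (δ * η)) + lg := by gcongr
      _ ≤ lg ^ C2 * (lg / 2) + lg ^ C2 * lg :=
        add_le_add h2 (le_mul_of_one_le_left hlg0.le hlp)
      _ = lg ^ C2 * (3 / 2 * lg) := by ring
      _ ≤ lg ^ C2 * lg ^ 2 := by
        have : 3 / 2 * lg ≤ lg ^ 2 := by
          rw [sq]
          exact mul_le_mul_of_nonneg_right (by linarith) hlg0.le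
        gcongr
  let Pg : (ℝ → ℝ) → Prop := fun g => (∀ s, |g s| ≤ 2) ∧ (∀ s s', |g s - g s'| ≤ L * |s - s'|) ∧
    (∀ s, ¬ (Real.log ((B : ℝ) / 2) ≤ s ∧ s ≤ Real.log (4 * (B : ℝ))) → g s = 0) ∧
    (∀ s1 s2 : ℝ, s1 ≤ s2 → |∫ s in s1..s2, g s| ≤ 1 / ℓ)
  let PG : (ℝ → ℝ) → Prop := fun G => (∀ v, |G v| ≤ 1) ∧
    (∀ v v', |G v - G v'| ≤ CS * ℓ * |v - v'| / B)
  have hS : ∀ U : ℕ, ∀ G0 : ℝ → ℝ, (∀ v, |G0 v| ≤ 1) →
      (∀ v v', ⌊(v - a * U) / (H : ℝ)⌋ = ⌊(v' - a * U) / (H : ℝ)⌋ → G0 v = G0 v') →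
      (∀ v, ¬ (7 / 10 * (B : ℝ) ≤ v ∧ v ≤ 32 / 10 * B) → G0 v = 0) →
      ∃ g G : ℝ → ℝ, Pg g ∧ PG G ∧ (∀ v, 0 < v → |G v + g (Real.log v)| ≤ 1) ∧
        (∀ v : ℝ, 0 < v → (∀ k : ℤ, δ * H ≤ |v - a * U - k * H|) →
          G0 v = G v + g (Real.log v)) := by
    intro U G0 h1 h2 h3
    obtain ⟨g, G, g1, g2, g3, g4, g5, g6, g7, g8⟩ := hSM (B : ℝ) H δ ℓ (a * U) G0 hBr hH0
      (by linarith) hδ0 hδ1 hℓ10 h1 h2 h3
    exact ⟨g, G, ⟨g1, by rw [hL]; exact g2, g3, g4⟩, ⟨g5, g6⟩, g7, g8⟩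
  have hG : ∀ U U' : ℕ, U ≤ U' → U' ≤ T → ∀ G, PG G → ∀ u0 v0 : ℕ,
      |∑ u ∈ (Ioc U U').filter (fun u => u ≡ u0 [MOD q]),
      ∑ v ∈ (Icc 1 (4 * B)).filter (fun v => v ≡ v0 [MOD q]), G v * EE z ((u : ℤ) * v + c)| ≤
      K * (VW 0 z)⁻¹ / (z * (q : ℝ) ^ 2) * (B * ((U' : ℝ) - U)) + ε1 * ((B : ℝ) * T) := by
    intro U U' hUU hUT G hPG u0 v0
    refine hB4 T U U' u0 v0 (fun v => G v) (hsq.trans (Nat.pow_le_pow_left hhT 2))
      (by rw [← hlgd]; exact hT3) hUU hUT (fun v => hPG.1 v) (fun v => ?_)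
    have h1 := hPG.2 ((v + 1 : ℕ) : ℝ) (v : ℝ)
    refine h1.trans ?_
    rw [← hlgd]
    have h2 : |(((v + 1 : ℕ) : ℝ) - (v : ℝ))| = 1 := by
      push_cast
      rw [add_sub_cancel_left, abs_one]
    rw [h2, mul_one]
    gcongr
  have hg1 : ∀ T' : ℕ, (T' = 0 ∨ h ≤ T') → T' ≤ T → ∀ g, Pg g → ∀ u0 v0 : ℕ,
      |∑ u ∈ (Icc 1 T').filter (fun u => u ≡ u0 [MOD q]),
      ∑ v ∈ (Icc 1 (4 * B)).filter (fun v => v ≡ v0 [MOD q]),
        g (Real.log v) * EE z ((u : ℤ) * v + c)| ≤ ε1 * ((B : ℝ) * T) := by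
    intro T' hT' hT'T g hPg u0 v0
    rcases hT' with hT' | hT'
    · subst hT'
      simp only [Icc_eq_empty_of_lt (show (0 : ℕ) < 1 by norm_num), filter_empty, sum_empty,
        abs_zero]
      positivity
    · obtain ⟨p1, p2, p3, p4⟩ := hPg
      refine (hB2 T' u0 v0 g L (hsq.trans (Nat.pow_le_pow_left hT' 2)) (by omega) hL1
        (by rw [← hlgd]; exact hL2) p1 p2 p3 (by rw [← hlgd, ← hℓ]; exact p4)).trans ?_
      have : (T' : ℝ) ≤ T := by exact_mod_cast hT'T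
      gcongr
  have hg : ∀ U U' : ℕ, U ≤ U' → U' ≤ T → (U = 0 ∨ h ≤ U) → (U' = 0 ∨ h ≤ U') → ∀ g, Pg g →
      ∀ u0 v0 : ℕ, |∑ u ∈ (Ioc U U').filter (fun u => u ≡ u0 [MOD q]),
      ∑ v ∈ (Icc 1 (4 * B)).filter (fun v => v ≡ v0 [MOD q]),
        g (Real.log v) * EE z ((u : ℤ) * v + c)| ≤ 2 * (ε1 * ((B : ℝ) * T)) := by
    intro U U' hUU hUT hU1 hU2 g hPg u0 v0
    rw [sub_filter _ _ hUU]
    have h1 := hg1 U' hU2 hUT g hPg u0 v0
    have h2 := hg1 U hU1 (hUU.trans hUT) g hPg u0 v0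
    exact (abs_sub _ _).trans (by linarith)
  -- the bad points
  obtain ⟨z1, hz1, hz2⟩ := exists_root k B (by omega)
  have h2k : 2 ^ k ≤ B := by
    have : (2 : ℝ) ^ k ≤ B := by
      have h1 : R ≤ R ^ 4 := by
        calc R = R ^ 1 := (pow_one R).symm
          _ ≤ R ^ 4 := pow_le_pow_right₀ hR0 (by norm_num)
      linarith
    exact_mod_cast this
  have hz12 : 2 ≤ z1 := by
    by_contra hcon
    have h1 : z1 + 1 ≤ 2 := by omega
    have h2 := Nat.pow_le_pow_left h1 k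
    omega
  have hz1R : (z1 : ℝ) ≤ R ^ 2 := by
    have h1 : z1 ^ 2 ≤ B := le_trans (Nat.pow_le_pow_right (by omega) hk2) hz1
    have h2 : (z1 : ℝ) ^ 2 ≤ (R ^ 2) ^ 2 := by
      calc (z1 : ℝ) ^ 2 ≤ B := by exact_mod_cast h1
        _ = (R ^ 2) ^ 2 := by rw [hRB]; ring
    exact le_of_sq_le_sq h2 (by positivity)
  have hcR : (c.natAbs : ℝ) ≤ R ^ 2 :=
    hM10.trans (hRM.trans (le_self_pow₀ hR0 (by norm_num)))
  have hnB : ∀ u v : ℕ, u ≤ T → v ≤ 4 * B → (u : ℤ) * v + c ≤ (B : ℤ) ^ 2 := by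
    intro u v hu hv
    have h1 : c ≤ |c| := le_abs_self c
    have h2 : (c.natAbs : ℝ) ≤ B := by
      have h3 : R ^ 2 ≤ R ^ 4 := pow_le_pow_right₀ hR0 (by norm_num)
      linarith
    have h3 : c.natAbs ≤ B := by exact_mod_cast h2
    have h4 : u * v ≤ T * (4 * B) := Nat.mul_le_mul hu hv
    have h5 : 100 * T * B ≤ B * B := Nat.mul_le_mul_right B h4T
    have h6 : 100 ≤ B := by exact_mod_cast hB100
    have h7 : 100 * B ≤ B * B := Nat.mul_le_mul_right B h6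
    have h8 : u * v + c.natAbs ≤ B ^ 2 := by
      rw [sq]
      linarith
    have h9 : ((u * v + c.natAbs : ℕ) : ℤ) ≤ ((B ^ 2 : ℕ) : ℤ) := by exact_mod_cast h8
    push_cast at h9
    linarith
  obtain ⟨E0, hE0⟩ : ∃ E0 : ℝ, E0 = 2 * lg + (VW 0 z)⁻¹ := ⟨_, rfl⟩
  have hVW0 : 0 < (VW 0 z)⁻¹ := inv_pos.2 (VW_pos 0 z)
  have hE00 : 0 ≤ E0 := by rw [hE0]; positivity
  have ht : ∀ u v : ℕ, u ≤ T → v ≤ 4 * B → |EE z ((u : ℤ) * v + c)| ≤ E0 := by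
    intro u v hu hv
    rw [hE0, hlgd]
    exact EE_triv hB1 (hnB u v hu hv)
  have hb : ∀ u v : ℕ, 1 ≤ u → u ≤ T → z1 + c.natAbs < v → v ≤ 4 * B →
      |EE z ((u : ℤ) * v + c)| ≤ Ck * (lz z1 ((u : ℤ) * v + c) + lz z ((u : ℤ) * v + c)) := by
    intro u v hu1 hu hv1 hv
    rw [hCk]
    refine EE_bound hCM1 (fun z hz => (hM z hz).1) (by omega) hB1 hz12 hz2 ?_ (hnB u v hu hv)
    have h1 : v ≤ u * v := Nat.le_mul_of_pos_left v hu1
    have h2 : (v : ℤ) ≤ (u : ℤ) * v := by exact_mod_cast h1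
    omega
  have hz1k : z1 ^ k0 ≤ B := le_trans (Nat.pow_le_pow_right (by omega) hk0) hz1
  have hzk : z ^ k0 ≤ B := by
    have : (z : ℝ) ^ k0 ≤ B := by
      have h1 : R ≤ R ^ 4 := by
        calc R = R ^ 1 := (pow_one R).symm
          _ ≤ R ^ 4 := pow_le_pow_right₀ hR0 (by norm_num)
      linarith
    exact_mod_cast this
  have hmm2 : 2 * δ * H ≤ mm H δ := by
    unfold mm
    push_cast
    linarith [Nat.le_ceil (2 * δ * (H : ℝ))]
  have hmm3 : (mm H δ : ℝ) ≤ 3 * (δ * H) := by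
    unfold mm
    push_cast
    have := Nat.ceil_lt_add_one (show 0 ≤ 2 * δ * (H : ℝ) by positivity)
    linarith
  have hU0' : ∀ U : ℕ, U ≤ T → ∀ y : ℕ, (y = z1 ∨ y = z) → ∀ k ∈ Kk H B (a * U),
      ∑ u ∈ Ioc U (U + h), ∑ v ∈ Ioc (I1 H δ (a * U) k) (I1 H δ (a * U) k + mm H δ),
        lz y ((u : ℤ) * v + c) ≤ CU * (h * mm H δ) := by
    intro U hUT y hy k hk
    have hy2 : 2 ≤ y := by rcases hy with rfl | rfl <;> assumption
    have hyk : y ^ k0 ≤ B := by rcases hy with rfl | rfl <;> assumption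
    have hpow4 : ∀ m : ℕ, R ^ 3 ≤ m → B ≤ m ^ 4 := by
      intro m hm
      have h1 : (B : ℝ) ≤ (m : ℝ) ^ 4 := by
        rw [hRB]
        have h2 : R ≤ m := by
          calc R = R ^ 1 := (pow_one R).symm
            _ ≤ R ^ 3 := pow_le_pow_right₀ hR0 (by norm_num)
            _ ≤ m := hm
        gcongr
      exact_mod_cast h1
    have h1 := hU0 y 1 1 U (U + h) (I1 H δ (a * U) k) (I1 H δ (a * U) k + mm H δ) hy2 hyk
      le_rfl le_rfl (by rw [one_pow]; exact hB1) (by rw [one_pow]; exact hB1) (Nat.le_add_right _ _)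
      (by rw [Nat.add_sub_cancel_left]; exact hpow4 h (by linarith))
      (by have := Nat.le_self_pow (show 2 ≠ 0 by norm_num) B; omega) (Nat.le_add_right _ _)
      (by rw [Nat.add_sub_cancel_left]; exact hpow4 _ (by linarith)) ?_
    · simp only [one_dvd, filter_true, Nat.totient_one, Nat.cast_one, mul_one, div_one] at h1
      refine h1.trans (le_of_eq ?_)
      push_cast
      ring
    · have h2 := I1_le (B := B) (σ := (a : ℝ) * U) hH1' hδ0.le hk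
      have h3 : ((I1 H δ (a * U) k + mm H δ : ℕ) : ℝ) ≤ (B : ℝ) ^ 2 := by
        push_cast
        have h4 : (H : ℝ) ≤ B := by linarith
        have h5 : δ * H ≤ 1 / 2 * H := by gcongr
        linarith
      exact_mod_cast h3
  -- the blocks
  obtain ⟨J, hJ⟩ : ∃ J : ℕ, J = T / h + 1 := ⟨_, rfl⟩
  let U : ℕ → ℕ := fun i => min (i * h) T
  have hUm : Monotone U := fun i j hij => min_le_min_right _ (Nat.mul_le_mul_right h hij)
  have hU0z : U 0 = 0 := by show min (0 * h) T = 0; simp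
  have hUJ : U J = T := by
    show min (J * h) T = T
    refine min_eq_right ?_
    rw [hJ, add_mul, one_mul]
    have := Nat.lt_div_mul_add hh0 (a := T)
    omega
  have hUT : ∀ i, U i ≤ T := fun i => min_le_right _ _
  have hUs : ∀ i, U (i + 1) ≤ U i + h := by
    intro i
    show min ((i + 1) * h) T ≤ min (i * h) T + h
    rw [add_mul, one_mul]
    omega
  have hUh : ∀ i, U i = 0 ∨ h ≤ U i := by
    intro i
    rcases Nat.eq_zero_or_pos i with rfl | hi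
    · exact Or.inl hU0z
    · right
      show h ≤ min (i * h) T
      exact le_min (Nat.le_mul_of_pos_left h hi) hhT
  have hblock : ∀ i ∈ range J, |∑ u ∈ Ioc (U i) (U (i + 1)), ∑ v ∈ Icc 1 (4 * B),
      F ((v : ℤ) - a * u) * EE z ((u : ℤ) * v + c)| ≤
      K * (VW 0 z)⁻¹ / z * B * ((U (i + 1) : ℝ) - U i) + (3 * (q : ℝ) ^ 2 * ε1 * ((B : ℝ) * T) +
        h * (2 * (z1 + c.natAbs : ℕ) * E0 + 4 * Ck * CU * (4 * B / H + 4) * mm H δ)) := by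
    intro i _
    have hsup : (H : ℝ) + |(a : ℝ) * U i| ≤ 3 / 10 * B := by
      rw [abs_mul, Nat.abs_cast]
      have h1 : (U i : ℝ) ≤ T := by exact_mod_cast hUT i
      have h2 : |(a : ℝ)| * U i ≤ |(a : ℝ)| * T := by gcongr
      have h3 : (4 * (1 + |(a : ℝ)|)) * T ≤ B := by
        calc (4 * (1 + |(a : ℝ)|)) * T ≤ M * T := by gcongr
          _ = T * M := by ring
          _ ≤ B := hTM
      linarith
    have h1 := block (c := c) (z := z) (B := B) hq hH1' hqH hF hA (hUs i) hδH hsup Pg PG (hS (U i))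
      (hG (U i) (U (i + 1)) (hUm (Nat.le_succ i)) (hUT _))
      (hg (U i) (U (i + 1)) (hUm (Nat.le_succ i)) (hUT _) (hUh i) (hUh (i + 1)))
    have h2 := bad_block (c := c) (z := z) (z1 := z1) (V0 := z1 + c.natAbs) (B := B) (H := H)
      (σ := (a : ℝ) * U i) hH1' hδ1 (hUs i) (hUT _) hCk0.le hE00 ht hb
      (hU0' (U i) (hUT i)) hCU.le
    refine (h1.trans (add_le_add_right h2 _)).trans (le_of_eq ?_)
    have hz0 : (0 : ℝ) < z := by
      have : 0 < z := by omega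
      exact_mod_cast this
    field_simp
    ring
  have hSF : SF a c z B T F = ∑ i ∈ range J, ∑ u ∈ Ioc (U i) (U (i + 1)), ∑ v ∈ Icc 1 (4 * B),
      F ((v : ℤ) - a * u) * EE z ((u : ℤ) * v + c) := by
    rw [tele _ U hUm J, hU0z, hUJ, Ioc_zero]
    rfl
  rw [hSF]
  have hsum : ∑ i ∈ range J, ((U (i + 1) : ℝ) - U i) = T := by
    rw [Finset.sum_range_sub (fun i => (U i : ℝ)) J, hUJ, hU0z]
    simp
  have hJh : (J : ℝ) * h ≤ 2 * T := by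
    have h1 : J * h ≤ 2 * T := by
      rw [hJ, add_mul, one_mul]
      have := Nat.div_mul_le_self T h
      omega
    exact_mod_cast h1
  have hJJ : (J : ℝ) ≤ J0 := by
    rw [hJ, hJ0]
    push_cast
    have h1 : ((T / h : ℕ) : ℝ) ≤ (T : ℝ) / h := Nat.cast_div_le
    have hhr : (0 : ℝ) < h := by exact_mod_cast hh0
    have h2 : (T : ℝ) / h ≤ 2 / (κ * η) := by
      rw [div_le_div_iff₀ hhr (by positivity)]
      have : κ * (η * T) ≤ κ * H := by gcongr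
      linarith
    linarith
  have hfin := final (MT := K * (VW 0 z)⁻¹ / z * B * T) (Bt := B) (T := T) (H := H) (hh := h)
    (mm' := mm H δ) (J := J) (J0 := J0) (q := q) (ε := ε) (ε1 := ε1) (δ := δ) (Ck := Ck)
    (CU := CU) (V0 := (z1 + c.natAbs : ℕ)) (E0 := E0) (R := R) (M := M) (lg := lg) hT0.le hH0 hJJ
    hJ00 hq0 hε hε1 hJh hR0 hRB (by push_cast; linarith)
    (by rw [hE0]; linarith) (Nat.cast_nonneg _) hE00 hM7 hR1 hlg0.le hmm3 (Nat.cast_nonneg _)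
    (by linarith) hCk0 hCU hδ0 hδ2
  calc _ ≤ ∑ i ∈ range J, |∑ u ∈ Ioc (U i) (U (i + 1)), ∑ v ∈ Icc 1 (4 * B),
      F ((v : ℤ) - a * u) * EE z ((u : ℤ) * v + c)| := Finset.abs_sum_le_sum_abs _ _
    _ ≤ ∑ i ∈ range J, (K * (VW 0 z)⁻¹ / z * B * ((U (i + 1) : ℝ) - U i) +
        (3 * (q : ℝ) ^ 2 * ε1 * ((B : ℝ) * T) +
        h * (2 * (z1 + c.natAbs : ℕ) * E0 + 4 * Ck * CU * (4 * B / H + 4) * mm H δ))) :=
        Finset.sum_le_sum hblock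
    _ = K * (VW 0 z)⁻¹ / z * B * T + J * (3 * (q : ℝ) ^ 2 * ε1 * ((B : ℝ) * T) +
        h * (2 * (z1 + c.natAbs : ℕ) * E0 + 4 * Ck * CU * (4 * B / H + 4) * mm H δ)) := by
        rw [Finset.sum_add_distrib, ← Finset.mul_sum, hsum, Finset.sum_const, card_range,
          nsmul_eq_mul]
    _ = K * (VW 0 z)⁻¹ / z * B * T + 3 * J * (q : ℝ) ^ 2 * ε1 * ((B : ℝ) * T) +
        J * h * (2 * (z1 + c.natAbs : ℕ) * E0 + 4 * Ck * CU * (4 * B / H + 4) * mm H δ) := by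
        ring
    _ ≤ K * (VW 0 z)⁻¹ / z * B * T + ε * (B * T) := hfin
    _ = _ := by ring

end Pool.Agent.N134.QL
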