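import Pool.Agent.N728.QL.Base

/-!
# Project QL, task BC: lemmas
-/

set_option autoImplicit false

namespace Pool.Agent.N134.QL

open Finset MeasureTheory Pool.Agent.N728.QL

/-! ### the pointwise bound of `EE` -/

theorem exists_root (k B : ℕ) (hk : 1 ≤ k) : ∃ z1 : ℕ, z1 ^ k ≤ B ∧ B < (z1 + 1) ^ k := by
  refine ⟨Nat.findGreatest (fun m => m ^ k ≤ B) B, ?_, ?_⟩
  · refine Nat.findGreatest_spec (P := fun m => m ^ k ≤ B) (Nat.zero_le B) ?_
    show 0 ^ k ≤ B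
    rw [zero_pow (by omega)]
    exact Nat.zero_le _
  · by_contra h
    push Not at h
    have h1 : Nat.findGreatest (fun m => m ^ k ≤ B) B + 1 ≤ B :=
      le_trans (Nat.le_self_pow (by omega) _) h
    have h2 := Nat.le_findGreatest (P := fun m => m ^ k ≤ B) h1 h
    omega

theorem lp_nonneg (n : ℤ) : 0 ≤ N728.QL.lp n := by
  unfold N728.QL.lp
  split_ifs with hp
  · have h1 : 1 ≤ n.toNat := hp.one_lt.le
    have h2 : (1 : ℤ) ≤ n := by omega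
    have h3 : (1 : ℝ) ≤ n := by exact_mod_cast h2
    exact Real.log_nonneg h3
  · exact le_refl _

theorem lp_le {B : ℕ} {n : ℤ} (hB : 1 ≤ B) (h2 : n ≤ (B : ℤ) ^ 2) : N728.QL.lp n ≤ 2 * Real.log B := by
  have hB' : (1 : ℝ) ≤ B := by exact_mod_cast hB
  have h0 : 0 ≤ Real.log B := Real.log_nonneg hB'
  unfold N728.QL.lp
  split_ifs with hp
  · have h1 : 1 ≤ n.toNat := hp.one_lt.le
    have h3 : (1 : ℤ) ≤ n := by omega
    have h4 : (0 : ℝ) < n := by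
      have : (1 : ℝ) ≤ n := by exact_mod_cast h3
      linarith
    have h5 : (n : ℝ) ≤ (B : ℝ) ^ 2 := by exact_mod_cast h2
    calc Real.log n ≤ Real.log ((B : ℝ) ^ 2) := Real.log_le_log h4 h5
      _ = 2 * Real.log B := by rw [Real.log_pow]; norm_num
  · linarith

theorem EE_triv {B z : ℕ} {n : ℤ} (hB : 1 ≤ B) (h2 : n ≤ (B : ℤ) ^ 2) :
    |EE z n| ≤ 2 * Real.log B + (VW 0 z)⁻¹ := by
  have h1 := lp_le hB h2
  have h3 := lp_nonneg n
  have h4 := lz_nonneg z n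
  have h5 := lz_le z n
  unfold EE
  rw [abs_le]
  constructor <;> linarith

theorem EE_bound {C : ℝ} (hC : 1 ≤ C) (hM : ∀ z : ℕ, 2 ≤ z → Real.log z ≤ C * (VW 0 z)⁻¹)
    {k B z z1 : ℕ} (hk : 1 ≤ k) (hB1 : 1 ≤ B) (hz1 : 2 ≤ z1) (hB : B < (z1 + 1) ^ k) {n : ℤ}
    (h1 : (z1 : ℤ) < n) (h2 : n ≤ (B : ℤ) ^ 2) :
    |EE z n| ≤ 4 * k * C * (lz z1 n + lz z n) := by
  have hk' : (1 : ℝ) ≤ k := by exact_mod_cast hk
  have h0 : 0 ≤ lz z n := lz_nonneg _ _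
  have h01 : 0 ≤ lz z1 n := lz_nonneg _ _
  have hkC : 1 ≤ 4 * (k : ℝ) * C := by nlinarith
  have h3 : N728.QL.lp n ≤ 4 * k * C * lz z1 n := by
    by_cases hp : n.toNat.Prime
    · have hn : (n.toNat : ℤ) = n := Int.toNat_of_nonneg (by omega)
      have hrg : Rg 0 z1 n := by
        intro p hp' _ hpz hd
        rw [← hn] at hd
        have h5 : p ∣ n.toNat := by exact_mod_cast hd
        have h6 := (Nat.prime_dvd_prime_iff_eq hp' hp).1 h5
        omega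
      have h7 := lp_le hB1 h2
      have h8 : Real.log B ≤ k * Real.log ((z1 : ℝ) + 1) := by
        have hB0 : (0 : ℝ) < B := by exact_mod_cast hB1
        have h9 : (B : ℝ) ≤ ((z1 : ℝ) + 1) ^ k := by exact_mod_cast hB.le
        calc Real.log B ≤ Real.log (((z1 : ℝ) + 1) ^ k) := Real.log_le_log hB0 h9
          _ = k * Real.log ((z1 : ℝ) + 1) := by rw [Real.log_pow]
      have h9 : Real.log ((z1 : ℝ) + 1) ≤ 2 * Real.log z1 := by
        have h10 : (2 : ℝ) ≤ z1 := by exact_mod_cast hz1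
        have h11 : (z1 : ℝ) + 1 ≤ (z1 : ℝ) ^ 2 := by nlinarith
        calc Real.log ((z1 : ℝ) + 1) ≤ Real.log ((z1 : ℝ) ^ 2) :=
              Real.log_le_log (by linarith) h11
          _ = 2 * Real.log z1 := by rw [Real.log_pow]; norm_num
      have h12 := hM z1 hz1
      have h13 : lz z1 n = (VW 0 z1)⁻¹ := by
        unfold lz
        rw [if_pos hrg]
      rw [h13]
      have h14 : (k : ℝ) * Real.log ((z1 : ℝ) + 1) ≤ k * (2 * (C * (VW 0 z1)⁻¹)) := by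
        gcongr
        linarith
      nlinarith
    · unfold N728.QL.lp
      rw [if_neg hp]
      positivity
  have h4 := lp_nonneg n
  unfold EE
  rw [abs_le]
  constructor <;> nlinarith

/-! ### classes -/

theorem filter_mod (S : Finset ℕ) {q u0 : ℕ} (h : u0 < q) :
    S.filter (fun u => u ≡ u0 [MOD q]) = S.filter (fun u => u % q = u0) := by
  refine Finset.filter_congr fun u _ => ?_
  unfold Nat.ModEq
  rw [Nat.mod_eq_of_lt h]

theorem sum_mod (S : Finset ℕ) {q : ℕ} (hq : 1 ≤ q) (f : ℕ → ℝ) :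
    ∑ u ∈ S, f u = ∑ u0 ∈ range q, ∑ u ∈ S.filter (fun u => u ≡ u0 [MOD q]), f u := by
  rw [← Finset.sum_fiberwise_of_maps_to (s := S) (t := range q) (g := fun u => u % q)
    (fun u _ => mem_range.2 (Nat.mod_lt _ hq))]
  refine Finset.sum_congr rfl fun u0 hu0 => ?_
  rw [filter_mod S (mem_range.1 hu0)]

theorem sum_mod2 (S V : Finset ℕ) {q : ℕ} (hq : 1 ≤ q) (f : ℕ → ℕ → ℝ) :
    ∑ u ∈ S, ∑ v ∈ V, f u v = ∑ u0 ∈ range q, ∑ v0 ∈ range q,
      ∑ u ∈ S.filter (fun u => u ≡ u0 [MOD q]), ∑ v ∈ V.filter (fun v => v ≡ v0 [MOD q]), f u v := by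
  rw [sum_mod S hq]
  refine Finset.sum_congr rfl fun u0 _ => ?_
  conv_rhs => rw [Finset.sum_comm]
  refine Finset.sum_congr rfl fun u _ => ?_
  exact sum_mod V hq _

theorem cls_bound (S V : Finset ℕ) {q : ℕ} (hq : 1 ≤ q) (f e : ℕ → ℕ → ℝ) (A : ℝ)
    (h : ∀ u0 v0 : ℕ, |∑ u ∈ S.filter (fun u => u ≡ u0 [MOD q]),
      ∑ v ∈ V.filter (fun v => v ≡ v0 [MOD q]), f u v| ≤
      A + ∑ u ∈ S.filter (fun u => u ≡ u0 [MOD q]), ∑ v ∈ V.filter (fun v => v ≡ v0 [MOD q]), e u v) :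
    |∑ u ∈ S, ∑ v ∈ V, f u v| ≤ (q : ℝ) ^ 2 * A + ∑ u ∈ S, ∑ v ∈ V, e u v := by
  rw [sum_mod2 S V hq f, sum_mod2 S V hq e]
  calc _ ≤ ∑ u0 ∈ range q, ∑ v0 ∈ range q, |∑ u ∈ S.filter (fun u => u ≡ u0 [MOD q]),
        ∑ v ∈ V.filter (fun v => v ≡ v0 [MOD q]), f u v| :=
        (Finset.abs_sum_le_sum_abs _ _).trans
          (Finset.sum_le_sum fun u0 _ => Finset.abs_sum_le_sum_abs _ _)
    _ ≤ ∑ u0 ∈ range q, ∑ v0 ∈ range q, (A + ∑ u ∈ S.filter (fun u => u ≡ u0 [MOD q]),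
        ∑ v ∈ V.filter (fun v => v ≡ v0 [MOD q]), e u v) :=
        Finset.sum_le_sum fun u0 _ => Finset.sum_le_sum fun v0 _ => h u0 v0
    _ = _ := by
        simp only [Finset.sum_add_distrib, Finset.sum_const, card_range, nsmul_eq_mul]
        ring_nf

/-! ### the step function -/

theorem ediv_eq {x k H : ℤ} (h1 : k * H ≤ x) (h2 : x < (k + 1) * H) : x / H = k := by
  have hH : 0 < H := by nlinarith
  exact ((Int.ediv_emod_unique hH).2 ⟨by ring, sub_nonneg.2 h1, by linarith⟩ :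
    x / H = k ∧ x % H = x - k * H).1

/-- the step function of a cell -/
noncomputable def st (F : ℤ → ℝ) (q H : ℕ) (σ : ℝ) (r : ℤ) (v : ℝ) : ℝ :=
  F (⌊(v - σ) / H⌋ * H + r % q)

theorem st_eq {F : ℤ → ℝ} {q H : ℕ} (hq : 1 ≤ q) (hH : 1 ≤ H) (hqH : q ∣ H)
    (hF : CellConst F q H) {a : ℤ} {U u h : ℕ} (hU : U ≤ u) (hu : u ≤ U + h) {δ : ℝ}
    (hδ : |(a : ℝ)| * h < δ * H) {v u0 v0 : ℕ} (hu0 : u ≡ u0 [MOD q]) (hv0 : v ≡ v0 [MOD q])
    (hv : ∀ k : ℤ, δ * H ≤ |(v : ℝ) - a * U - k * H|) :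
    F ((v : ℤ) - a * u) = st F q H (a * U) ((v0 : ℤ) - a * u0) v := by
  unfold st
  set k := ⌊((v : ℝ) - a * U) / H⌋ with hk
  have hHr : (0 : ℝ) < H := by exact_mod_cast hH
  have h1 : (k : ℝ) * H ≤ (v : ℝ) - a * U := by
    rw [← le_div_iff₀ hHr]
    exact Int.floor_le _
  have h2 : (v : ℝ) - a * U < (k + 1) * H := by
    rw [← div_lt_iff₀ hHr]
    exact Int.lt_floor_add_one _
  have h3 := hv k
  have h4 := hv (k + 1)
  rw [abs_of_nonneg (by linarith)] at h3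
  rw [abs_of_neg (by push_cast; linarith)] at h4
  push_cast at h4
  have hUr : (U : ℝ) ≤ u := by exact_mod_cast hU
  have hur : (u : ℝ) ≤ U + h := by exact_mod_cast hu
  have h5 : |(a : ℝ) * ((u : ℝ) - U)| ≤ |(a : ℝ)| * h := by
    rw [abs_mul]
    refine mul_le_mul_of_nonneg_left ?_ (abs_nonneg _)
    rw [abs_of_nonneg (by linarith)]
    linarith
  have h6 := abs_le.1 h5
  have h7 : (k : ℝ) * H ≤ (v : ℝ) - a * u := by linarith [h6.2, mul_sub (a : ℝ) u U]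
  have h8 : (v : ℝ) - a * u < (k + 1) * H := by linarith [h6.1, mul_sub (a : ℝ) u U]
  have h9 : k * H ≤ (v : ℤ) - a * u := by exact_mod_cast h7
  have h10 : (v : ℤ) - a * u < (k + 1) * H := by exact_mod_cast h8
  have hqz : (0 : ℤ) < q := by exact_mod_cast hq
  have hqHz : (q : ℤ) ≤ H := by exact_mod_cast Nat.le_of_dvd hH hqH
  have hr0 := Int.emod_nonneg ((v0 : ℤ) - a * u0) hqz.ne'
  have hr1 := Int.emod_lt_of_pos ((v0 : ℤ) - a * u0) hqz
  apply hF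
  · have e1 : (v : ℤ) ≡ v0 [ZMOD q] := (Int.natCast_modEq_iff).2 hv0
    have e2 : (u : ℤ) ≡ u0 [ZMOD q] := (Int.natCast_modEq_iff).2 hu0
    have e3 : (v : ℤ) - a * u ≡ v0 - a * u0 [ZMOD q] := e1.sub (e2.mul_left a)
    have e4 : k * H + ((v0 : ℤ) - a * u0) % q ≡ 0 + ((v0 : ℤ) - a * u0) [ZMOD q] := by
      refine Int.ModEq.add ?_ (Int.mod_modEq _ _)
      exact (Int.modEq_zero_iff_dvd).2 (Dvd.dvd.mul_left (by exact_mod_cast hqH) k)
    rw [zero_add] at e4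
    exact e3.trans e4.symm
  · rw [ediv_eq h9 h10, ediv_eq (k := k)]
    · linarith
    · linarith

theorem st_abs {F : ℤ → ℝ} {q H B : ℕ} (hA : Adm F B) (σ : ℝ) (r : ℤ) (v : ℝ) :
    |st F q H σ r v| ≤ 1 := hA.1 _

theorem st_supp {F : ℤ → ℝ} {q H B : ℕ} (hq : 1 ≤ q) (hH : 1 ≤ H) (hqH : q ∣ H) (hA : Adm F B)
    {σ : ℝ} (hσ : (H : ℝ) + |σ| ≤ 3 / 10 * B) (r : ℤ) (v : ℝ)
    (hv : ¬ (7 / 10 * (B : ℝ) ≤ v ∧ v ≤ 32 / 10 * B)) : st F q H σ r v = 0 := by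
  unfold st
  apply hA.2
  rintro ⟨h1, h2⟩
  apply hv
  have hHr : (0 : ℝ) < H := by exact_mod_cast hH
  have h3 : (⌊(v - σ) / H⌋ : ℝ) * H ≤ v - σ := by
    rw [← le_div_iff₀ hHr]
    exact Int.floor_le _
  have h4 : v - σ < (⌊(v - σ) / H⌋ + 1) * H := by
    rw [← div_lt_iff₀ hHr]
    exact Int.lt_floor_add_one _
  have hqz : (0 : ℤ) < q := by exact_mod_cast hq
  have hr0 := Int.emod_nonneg r hqz.ne'
  have hr1 := Int.emod_lt_of_pos r hqz
  have hqHz : (q : ℤ) ≤ H := by exact_mod_cast Nat.le_of_dvd hH hqH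
  have h5 : ((r % q : ℤ) : ℝ) ≤ H := by
    have : (r % q : ℤ) ≤ H := by linarith
    exact_mod_cast this
  have h6 : (0 : ℝ) ≤ ((r % q : ℤ) : ℝ) := by exact_mod_cast hr0
  have h7 : (B : ℝ) < (⌊(v - σ) / H⌋ : ℝ) * H + ((r % q : ℤ) : ℝ) := by exact_mod_cast h1
  have h8 : (⌊(v - σ) / H⌋ : ℝ) * H + ((r % q : ℤ) : ℝ) ≤ 2 * B := by exact_mod_cast h2
  have h9 := abs_le.1 (le_refl |σ|)
  constructor <;> nlinarith

end Pool.Agent.N134.QL
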