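import Pool.Agent.N134.QL.BCa

/-!
# Project QL, task BC: the blocks
-/

set_option autoImplicit false

namespace Pool.Agent.N134.QL

open Finset MeasureTheory Pool.Agent.N728.QL

/-- bad points -/
def Bd (H : ℕ) (δ σ : ℝ) (v : ℕ) : Prop := ¬ ∀ k : ℤ, δ * H ≤ |(v : ℝ) - σ - k * H|

open Classical in
theorem block {a c : ℤ} {q z B H h U U' : ℕ} {F : ℤ → ℝ} {δ X2 X4 : ℝ}
    (hq : 1 ≤ q) (hH : 1 ≤ H) (hqH : q ∣ H) (hF : CellConst F q H) (hA : Adm F B)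
    (hU' : U' ≤ U + h) (hδ : |(a : ℝ)| * h < δ * H)
    (hsup : (H : ℝ) + |(a : ℝ) * U| ≤ 3 / 10 * B) (Pg PG : (ℝ → ℝ) → Prop)
    (hS : ∀ G0 : ℝ → ℝ, (∀ v, |G0 v| ≤ 1) →
      (∀ v v', ⌊(v - a * U) / (H : ℝ)⌋ = ⌊(v' - a * U) / (H : ℝ)⌋ → G0 v = G0 v') →
      (∀ v, ¬ (7 / 10 * (B : ℝ) ≤ v ∧ v ≤ 32 / 10 * B) → G0 v = 0) →
      ∃ g G : ℝ → ℝ, Pg g ∧ PG G ∧ (∀ v, 0 < v → |G v + g (Real.log v)| ≤ 1) ∧
        (∀ v : ℝ, 0 < v → (∀ k : ℤ, δ * H ≤ |v - a * U - k * H|) →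
          G0 v = G v + g (Real.log v)))
    (hG : ∀ G, PG G → ∀ u0 v0 : ℕ, |∑ u ∈ (Ioc U U').filter (fun u => u ≡ u0 [MOD q]),
      ∑ v ∈ (Icc 1 (4 * B)).filter (fun v => v ≡ v0 [MOD q]), G v * EE z ((u : ℤ) * v + c)| ≤ X4)
    (hg : ∀ g, Pg g → ∀ u0 v0 : ℕ, |∑ u ∈ (Ioc U U').filter (fun u => u ≡ u0 [MOD q]),
      ∑ v ∈ (Icc 1 (4 * B)).filter (fun v => v ≡ v0 [MOD q]),
        g (Real.log v) * EE z ((u : ℤ) * v + c)| ≤ X2) :
    |∑ u ∈ Ioc U U', ∑ v ∈ Icc 1 (4 * B), F ((v : ℤ) - a * u) * EE z ((u : ℤ) * v + c)| ≤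
      (q : ℝ) ^ 2 * (X4 + X2) + ∑ u ∈ Ioc U U', ∑ v ∈ Icc 1 (4 * B),
        (if Bd H δ (a * U) v then 2 * |EE z ((u : ℤ) * v + c)| else 0) := by
  refine cls_bound _ _ hq _ _ _ fun u0 v0 => ?_
  obtain ⟨g, G, hPg, hPG, h1, h2⟩ := hS (st F q H (a * U) ((v0 : ℤ) - a * u0))
    (st_abs hA _ _) (fun v v' hv => by unfold st; rw [hv]) (st_supp hq hH hqH hA hsup _)
  have h3 := hG G hPG u0 v0
  have h4 := hg g hPg u0 v0
  have key : ∀ u ∈ (Ioc U U').filter (fun u => u ≡ u0 [MOD q]),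
      ∀ v ∈ (Icc 1 (4 * B)).filter (fun v => v ≡ v0 [MOD q]),
      |F ((v : ℤ) - a * u) * EE z ((u : ℤ) * v + c) - (G v * EE z ((u : ℤ) * v + c) +
        g (Real.log v) * EE z ((u : ℤ) * v + c))| ≤
      (if Bd H δ (a * U) v then 2 * |EE z ((u : ℤ) * v + c)| else 0) := by
    intro u hu v hv
    obtain ⟨hu1, hu2⟩ := mem_filter.1 hu
    obtain ⟨hv1, hv2⟩ := mem_filter.1 hv
    rw [mem_Ioc] at hu1
    rw [mem_Icc] at hv1
    have hv0 : (0 : ℝ) < v := by exact_mod_cast hv1.1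
    rw [show F ((v : ℤ) - a * u) * EE z ((u : ℤ) * v + c) - (G v * EE z ((u : ℤ) * v + c) +
        g (Real.log v) * EE z ((u : ℤ) * v + c)) =
        (F ((v : ℤ) - a * u) - (G v + g (Real.log v))) * EE z ((u : ℤ) * v + c) by ring, abs_mul]
    by_cases hb : Bd H δ (a * U) v
    · rw [if_pos hb]
      refine mul_le_mul_of_nonneg_right ?_ (abs_nonneg _)
      have h5 := hA.1 ((v : ℤ) - a * u)
      have h6 := h1 v hv0
      exact (abs_sub _ _).trans (by linarith)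
    · rw [if_neg hb]
      unfold Bd at hb
      push Not at hb
      have h5 := h2 v hv0 hb
      rw [st_eq hq hH hqH hF hu1.1.le (hu1.2.trans hU') hδ hu2 hv2 hb, h5, sub_self, abs_zero,
        zero_mul]
  have h5 : |∑ u ∈ (Ioc U U').filter (fun u => u ≡ u0 [MOD q]),
      ∑ v ∈ (Icc 1 (4 * B)).filter (fun v => v ≡ v0 [MOD q]),
        (F ((v : ℤ) - a * u) * EE z ((u : ℤ) * v + c) - (G v * EE z ((u : ℤ) * v + c) +
        g (Real.log v) * EE z ((u : ℤ) * v + c)))| ≤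
      ∑ u ∈ (Ioc U U').filter (fun u => u ≡ u0 [MOD q]),
        ∑ v ∈ (Icc 1 (4 * B)).filter (fun v => v ≡ v0 [MOD q]),
        (if Bd H δ (a * U) v then 2 * |EE z ((u : ℤ) * v + c)| else 0) :=
    (Finset.abs_sum_le_sum_abs _ _).trans (Finset.sum_le_sum fun u hu =>
      (Finset.abs_sum_le_sum_abs _ _).trans (Finset.sum_le_sum fun v hv => key u hu v hv))
  simp only [Finset.sum_sub_distrib, Finset.sum_add_distrib] at h5
  rw [abs_le] at h3 h4 h5 ⊢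
  constructor <;> linarith

/-- the left end of the interval around `σ + k H` -/
noncomputable def I1 (H : ℕ) (δ σ : ℝ) (k : ℤ) : ℕ := (⌊σ + k * H - δ * H⌋).toNat

/-- the length of the intervals -/
noncomputable def mm (H : ℕ) (δ : ℝ) : ℕ := ⌈2 * δ * H⌉₊ + 1

/-- the indices of the intervals -/
noncomputable def Kk (H B : ℕ) (σ : ℝ) : Finset ℤ :=
  Icc (⌊-σ / H⌋ - 1) (⌊(4 * (B : ℝ) - σ) / H⌋ + 1)

theorem Kk_card {H B : ℕ} (σ : ℝ) : ((Kk H B σ).card : ℝ) ≤ 4 * B / H + 4 := by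
  have h1 : (⌊(4 * (B : ℝ) - σ) / H⌋ : ℝ) ≤ (4 * (B : ℝ) - σ) / H := Int.floor_le _
  have h2 : -σ / H < ⌊-σ / (H : ℝ)⌋ + 1 := Int.lt_floor_add_one _
  have h0 : (0 : ℝ) ≤ 4 * B / H := by positivity
  have h3 : (4 * (B : ℝ) - σ) / H = 4 * B / H + -σ / H := by ring
  unfold Kk
  rw [Int.card_Icc]
  rcases le_or_gt 0 (⌊(4 * (B : ℝ) - σ) / H⌋ + 1 + 1 - (⌊-σ / (H : ℝ)⌋ - 1)) with h | h
  · have h4 : (((⌊(4 * (B : ℝ) - σ) / H⌋ + 1 + 1 - (⌊-σ / (H : ℝ)⌋ - 1)).toNat : ℤ) : ℝ) =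
        (⌊(4 * (B : ℝ) - σ) / H⌋ + 1 + 1 - (⌊-σ / (H : ℝ)⌋ - 1) : ℝ) := by
      rw [Int.toNat_of_nonneg h]
      push_cast
      ring
    rw [Int.cast_natCast] at h4
    rw [h4]
    linarith
  · rw [Int.toNat_of_nonpos h.le]
    push_cast
    linarith

theorem mem_int {H B v : ℕ} {δ σ : ℝ} (hH : 1 ≤ H) (hδ : δ ≤ 1 / 2)
    (hv : v ∈ Icc 1 (4 * B)) (hb : Bd H δ σ v) :
    ∃ k ∈ Kk H B σ, v ∈ Ioc (I1 H δ σ k) (I1 H δ σ k + mm H δ) := by
  unfold Bd at hb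
  push Not at hb
  obtain ⟨k, hk⟩ := hb
  have hHr : (0 : ℝ) < H := by exact_mod_cast hH
  rw [mem_Icc] at hv
  have hv1 : (1 : ℝ) ≤ v := by exact_mod_cast hv.1
  have hv2 : (v : ℝ) ≤ 4 * B := by exact_mod_cast hv.2
  obtain ⟨h1, h2⟩ := abs_lt.1 hk
  have hδH : δ * H ≤ 1 / 2 * H := mul_le_mul_of_nonneg_right hδ hHr.le
  refine ⟨k, ?_, ?_⟩
  · unfold Kk
    rw [mem_Icc]
    constructor
    · have h3 : -σ / H < k + 1 := by
        rw [div_lt_iff₀ hHr]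
        nlinarith
      have h4 : ⌊-σ / (H : ℝ)⌋ < k + 1 := by
        have := (Int.floor_le (-σ / (H : ℝ))).trans_lt h3
        exact_mod_cast this
      omega
    · have h3 : (k : ℝ) - 1 ≤ (4 * (B : ℝ) - σ) / H := by
        rw [le_div_iff₀ hHr]
        nlinarith
      have h4 : k - 1 ≤ ⌊(4 * (B : ℝ) - σ) / H⌋ := by
        rw [Int.le_floor]
        push_cast
        exact h3
      omega
  · rw [mem_Ioc]
    unfold I1 mm
    have h5 : (⌊σ + k * H - δ * H⌋ : ℝ) ≤ σ + k * H - δ * H := Int.floor_le _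
    have h6 : σ + k * H - δ * H < ⌊σ + k * H - δ * H⌋ + 1 := Int.lt_floor_add_one _
    have h7 : 2 * δ * H ≤ (⌈2 * δ * H⌉₊ : ℝ) := Nat.le_ceil _
    constructor
    · have h8 : (⌊σ + k * H - δ * H⌋ : ℝ) < v := by linarith
      have h9 : ⌊σ + k * H - δ * H⌋ < (v : ℤ) := by exact_mod_cast h8
      omega
    · have h8 : (v : ℝ) < ⌊σ + k * H - δ * H⌋ + 1 + (⌈2 * δ * H⌉₊ : ℝ) := by linarith
      have h9 : (v : ℤ) < ⌊σ + k * H - δ * H⌋ + 1 + (⌈2 * δ * H⌉₊ : ℤ) := by exact_mod_cast h8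
      omega

theorem I1_le {H B : ℕ} {δ σ : ℝ} (hH : 1 ≤ H) (hδ : 0 ≤ δ) {k : ℤ} (hk : k ∈ Kk H B σ) :
    (I1 H δ σ k : ℝ) ≤ 4 * B + H := by
  have hHr : (0 : ℝ) < H := by exact_mod_cast hH
  unfold Kk at hk
  rw [mem_Icc] at hk
  have h1 : (⌊(4 * (B : ℝ) - σ) / H⌋ : ℝ) ≤ (4 * (B : ℝ) - σ) / H := Int.floor_le _
  have h2 : (k : ℝ) ≤ ⌊(4 * (B : ℝ) - σ) / H⌋ + 1 := by exact_mod_cast hk.2
  have h3 : (k : ℝ) - 1 ≤ (4 * (B : ℝ) - σ) / H := by linarith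
  rw [le_div_iff₀ hHr] at h3
  have h5 : (⌊σ + k * H - δ * H⌋ : ℝ) ≤ σ + k * H - δ * H := Int.floor_le _
  unfold I1
  rcases le_or_gt 0 ⌊σ + k * H - δ * H⌋ with h | h
  · have h4 : ((⌊σ + k * H - δ * H⌋.toNat : ℤ) : ℝ) = ⌊σ + k * H - δ * H⌋ := by
      rw [Int.toNat_of_nonneg h]
    rw [Int.cast_natCast] at h4
    rw [h4]
    nlinarith [mul_nonneg hδ hHr.le]
  · rw [Int.toNat_of_nonpos h.le]
    push_cast
    positivity

open Classical in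
theorem bad_sum {H B : ℕ} {δ σ : ℝ} (hH : 1 ≤ H) (hδ : δ ≤ 1 / 2) (w : ℕ → ℝ)
    (hw : ∀ v, 0 ≤ w v) :
    ∑ v ∈ Icc 1 (4 * B), (if Bd H δ σ v then w v else 0) ≤
      ∑ k ∈ Kk H B σ, ∑ v ∈ Ioc (I1 H δ σ k) (I1 H δ σ k + mm H δ), w v := by
  calc ∑ v ∈ Icc 1 (4 * B), (if Bd H δ σ v then w v else 0)
      ≤ ∑ v ∈ Icc 1 (4 * B), ∑ k ∈ Kk H B σ,
        (if v ∈ Ioc (I1 H δ σ k) (I1 H δ σ k + mm H δ) then w v else 0) := by
        refine Finset.sum_le_sum fun v hv => ?_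
        have h0 : ∀ k ∈ Kk H B σ, (0 : ℝ) ≤
            (if v ∈ Ioc (I1 H δ σ k) (I1 H δ σ k + mm H δ) then w v else 0) := by
          intro k _
          split_ifs
          · exact hw v
          · exact le_refl _
        split_ifs with hb
        · obtain ⟨k, hk, hkv⟩ := mem_int hH hδ hv hb
          have h1 := Finset.single_le_sum h0 hk
          rw [if_pos hkv] at h1
          exact h1
        · exact Finset.sum_nonneg h0
    _ = ∑ k ∈ Kk H B σ, ∑ v ∈ Icc 1 (4 * B),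
        (if v ∈ Ioc (I1 H δ σ k) (I1 H δ σ k + mm H δ) then w v else 0) := Finset.sum_comm
    _ ≤ _ := by
        refine Finset.sum_le_sum fun k _ => ?_
        rw [← Finset.sum_filter]
        refine Finset.sum_le_sum_of_subset_of_nonneg ?_ fun v _ _ => hw v
        intro v hv
        exact (mem_filter.1 hv).2

open Classical in
/-- the contribution of the bad points of a block -/
theorem bad_block {c : ℤ} {z z1 V0 B H h U U' T : ℕ} {δ σ Ck CU E0 : ℝ} (hH : 1 ≤ H)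
    (hδ : δ ≤ 1 / 2) (hU' : U' ≤ U + h) (hT : U' ≤ T) (hCk : 0 ≤ Ck) (hE0 : 0 ≤ E0)
    (ht : ∀ u v : ℕ, u ≤ T → v ≤ 4 * B → |EE z ((u : ℤ) * v + c)| ≤ E0)
    (hb : ∀ u v : ℕ, 1 ≤ u → u ≤ T → V0 < v → v ≤ 4 * B →
      |EE z ((u : ℤ) * v + c)| ≤ Ck * (lz z1 ((u : ℤ) * v + c) + lz z ((u : ℤ) * v + c)))
    (hU0 : ∀ y : ℕ, (y = z1 ∨ y = z) → ∀ k ∈ Kk H B σ, ∑ u ∈ Ioc U (U + h),
      ∑ v ∈ Ioc (I1 H δ σ k) (I1 H δ σ k + mm H δ), lz y ((u : ℤ) * v + c) ≤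
      CU * (h * mm H δ)) (hCU : 0 ≤ CU) :
    ∑ u ∈ Ioc U U', ∑ v ∈ Icc 1 (4 * B),
        (if Bd H δ σ v then 2 * |EE z ((u : ℤ) * v + c)| else 0) ≤
      2 * h * V0 * E0 + 4 * Ck * CU * (4 * B / H + 4) * (h * mm H δ) := by
  have h1 : ∀ u ∈ Ioc U U', ∑ v ∈ Icc 1 (4 * B),
        (if Bd H δ σ v then 2 * |EE z ((u : ℤ) * v + c)| else 0) ≤
      2 * V0 * E0 + 2 * Ck * ∑ k ∈ Kk H B σ,
        ∑ v ∈ Ioc (I1 H δ σ k) (I1 H δ σ k + mm H δ),
          (lz z1 ((u : ℤ) * v + c) + lz z ((u : ℤ) * v + c)) := by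
    intro u hu
    rw [mem_Ioc] at hu
    have h2 : ∀ v ∈ Icc 1 (4 * B),
        (if Bd H δ σ v then 2 * |EE z ((u : ℤ) * v + c)| else 0) ≤
        (if v ≤ V0 then 2 * E0 else 0) + 2 * Ck * (if Bd H δ σ v then
          (lz z1 ((u : ℤ) * v + c) + lz z ((u : ℤ) * v + c)) else 0) := by
      intro v hv
      rw [mem_Icc] at hv
      have h3 := lz_nonneg z1 ((u : ℤ) * v + c)
      have h4 := lz_nonneg z ((u : ℤ) * v + c)
      by_cases hbv : Bd H δ σ v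
      · rw [if_pos hbv, if_pos hbv]
        by_cases hvV : v ≤ V0
        · rw [if_pos hvV]
          have h5 := ht u v (hu.2.trans hT) hv.2
          have h6 : 0 ≤ 2 * Ck * (lz z1 ((u : ℤ) * v + c) + lz z ((u : ℤ) * v + c)) := by
            positivity
          linarith
        · rw [if_neg hvV]
          have h5 := hb u v (by omega) (hu.2.trans hT) (by omega) hv.2
          linarith
      · rw [if_neg hbv, if_neg hbv]
        split_ifs
        · linarith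
        · linarith
    refine (Finset.sum_le_sum h2).trans ?_
    rw [Finset.sum_add_distrib, ← Finset.mul_sum]
    refine add_le_add ?_ (mul_le_mul_of_nonneg_left (bad_sum hH hδ _ fun v =>
      add_nonneg (lz_nonneg _ _) (lz_nonneg _ _)) (by positivity))
    rw [← Finset.sum_filter, Finset.sum_const, nsmul_eq_mul]
    have h5 : ((Icc 1 (4 * B)).filter (fun v => v ≤ V0)).card ≤ V0 := by
      have h6 : (Icc 1 (4 * B)).filter (fun v => v ≤ V0) ⊆ Icc 1 V0 := by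
        intro v hv
        rw [mem_filter, mem_Icc] at hv
        rw [mem_Icc]
        omega
      have h7 := Finset.card_le_card h6
      rw [Nat.card_Icc] at h7
      omega
    have h6 : (((Icc 1 (4 * B)).filter (fun v => v ≤ V0)).card : ℝ) ≤ V0 := by exact_mod_cast h5
    nlinarith
  have hcard : ((Ioc U U').card : ℝ) ≤ h := by
    rw [Nat.card_Ioc]
    have : U' - U ≤ h := by omega
    exact_mod_cast this
  calc _ ≤ ∑ u ∈ Ioc U U', (2 * V0 * E0 + 2 * Ck * ∑ k ∈ Kk H B σ,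
        ∑ v ∈ Ioc (I1 H δ σ k) (I1 H δ σ k + mm H δ),
          (lz z1 ((u : ℤ) * v + c) + lz z ((u : ℤ) * v + c))) := Finset.sum_le_sum h1
    _ = (Ioc U U').card * (2 * V0 * E0) + 2 * Ck * ∑ k ∈ Kk H B σ, ∑ u ∈ Ioc U U',
        ∑ v ∈ Ioc (I1 H δ σ k) (I1 H δ σ k + mm H δ),
          (lz z1 ((u : ℤ) * v + c) + lz z ((u : ℤ) * v + c)) := by
        rw [Finset.sum_add_distrib, Finset.sum_const, nsmul_eq_mul, ← Finset.mul_sum,
          Finset.sum_comm]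
    _ ≤ h * (2 * V0 * E0) + 2 * Ck * ∑ k ∈ Kk H B σ, (2 * (CU * (h * mm H δ))) := by
        refine add_le_add (mul_le_mul_of_nonneg_right hcard (by positivity)) ?_
        refine mul_le_mul_of_nonneg_left (Finset.sum_le_sum fun k hk => ?_) (by positivity)
        calc _ ≤ ∑ u ∈ Ioc U (U + h), ∑ v ∈ Ioc (I1 H δ σ k) (I1 H δ σ k + mm H δ),
              (lz z1 ((u : ℤ) * v + c) + lz z ((u : ℤ) * v + c)) := by
              refine Finset.sum_le_sum_of_subset_of_nonneg ?_ fun u _ _ =>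
                Finset.sum_nonneg fun v _ => add_nonneg (lz_nonneg _ _) (lz_nonneg _ _)
              intro u hu
              rw [mem_Ioc] at hu ⊢
              omega
          _ = _ := by simp only [Finset.sum_add_distrib]
          _ ≤ CU * (h * mm H δ) + CU * (h * mm H δ) :=
              add_le_add (hU0 z1 (Or.inl rfl) k hk) (hU0 z (Or.inr rfl) k hk)
          _ = _ := by ring
    _ = 2 * h * V0 * E0 + 4 * Ck * CU * (Kk H B σ).card * (h * mm H δ) := by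
        rw [Finset.sum_const, nsmul_eq_mul]
        ring
    _ ≤ _ := by
        gcongr
        exact Kk_card σ

end Pool.Agent.N134.QL
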